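import Mathlib
import Pool.Agent.K6.H60.TZ.Stm
import Pool.Agent.K6.H60.TZ.ASM
import Pool.Agent.K6.H60.TZ.TRANS
import Pool.Agent.K6.H60.TZ.NORM
import Pool.Agent.K6.H60.TZ.NTHREE
import Pool.Agent.K6.H60.TZ.LONE
import Pool.Agent.K6.H60.TZ.DTHREE
import Pool.Agent.K6.H60.TZ.CONE2
import Pool.Agent.K6.H60.TZ.SGN60

/-!
# The Toeplitz mini-max constants `c_N` (MP_4845ad_an)

`c_N` is the largest ratio `c_A / ‖A‖` over the nonzero self-adjoint Toeplitz matrices `A` of size `N+1`,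
where `c_A` is the least sup norm of a function on the circle with the Fourier coefficients of `A`.
We prove

* `c_N ≤ c_M` whenever `k N ≤ M < k (N+1)` for some `k ≥ 1`; in particular for all `M ≥ N^2`;
* `c_N` converges to its supremum;
* `c_1 < c_N` for every `N ≥ 2`, indeed `c_1 ≤ π/2 < 8π/(9√3) ≤ c_N`.
-/

open MeasureTheory

namespace Pool.Agent.Results.MP_4845ad_an.EventualMonotonicity

/-- The `n`-th Fourier coefficient `∫₀¹ f(x) e^{-2π i n x} dx` of a function on the circle with normalized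
Lebesgue measure; the circle is parametrised by `x ∈ (0,1]`, `z = e^{2π i x}`. -/
noncomputable def coef (f : ℝ → ℂ) (n : ℤ) : ℂ :=
  ∫ x in (0:ℝ)..1, f x * Complex.exp (-(2 * Real.pi * n * x) * Complex.I)

/-- The Toeplitz matrix `(a (j-k))`, `0 ≤ j, k ≤ N`. -/
def toep (N : ℕ) (a : ℤ → ℂ) : Matrix (Fin (N+1)) (Fin (N+1)) ℂ :=
  Matrix.of fun j k => a ((j : ℤ) - (k : ℤ))

/-- The operator norm of the Toeplitz matrix on `ℂ^{N+1}` with the Euclidean norm. -/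
noncomputable def nrm (N : ℕ) (a : ℤ → ℂ) : ℝ :=
  ‖Matrix.toEuclideanCLM (n := Fin (N+1)) (𝕜 := ℂ) (toep N a)‖

/-- The norm of `f` in `L^∞` of the circle. -/
noncomputable def sup (f : ℝ → ℂ) : ENNReal :=
  eLpNorm f ⊤ (volume.restrict (Set.Ioc (0:ℝ) 1))

/-- `f` is in `L^∞` of the circle and has the coefficients `a n`, `-N ≤ n ≤ N`. -/
def Ext (N : ℕ) (a : ℤ → ℂ) (f : ℝ → ℂ) : Prop :=
  MemLp f ⊤ (volume.restrict (Set.Ioc (0:ℝ) 1)) ∧ ∀ n : ℤ, |n| ≤ N → coef f n = a n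

/-- `c_A`: the infimum of the norms `‖f‖_∞` over all `f` with the coefficients of `A`. -/
noncomputable def cA (N : ℕ) (a : ℤ → ℂ) : ENNReal :=
  ⨅ (f : ℝ → ℂ) (_ : Ext N a f), sup f

/-- The matrix `toep N a` is self-adjoint. -/
def SelfAdj (N : ℕ) (a : ℤ → ℂ) : Prop := ∀ n : ℤ, |n| ≤ N → a (-n) = star (a n)

/-- `c_N`: the supremum of `c_A / ‖A‖` over the nonzero self-adjoint Toeplitz matrices of size `N+1`. -/
noncomputable def c (N : ℕ) : ENNReal :=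
  ⨆ (a : ℤ → ℂ) (_ : SelfAdj N a) (_ : toep N a ≠ 0), cA N a / ENNReal.ofReal (nrm N a)

theorem result :
    (∀ N k M : ℕ, 1 ≤ k → k * N ≤ M → M < k * (N + 1) → c N ≤ c M) ∧
    (∀ N M : ℕ, N ^ 2 ≤ M → c N ≤ c M) ∧
    Filter.Tendsto c Filter.atTop (nhds (⨆ N, c N)) ∧
    c 1 ≤ ENNReal.ofReal (Real.pi / 2) ∧
    ENNReal.ofReal (Real.pi / 2) < ENNReal.ofReal (8 * Real.pi / (9 * Real.sqrt 3)) ∧
    (∀ N : ℕ, 2 ≤ N → ENNReal.ofReal (8 * Real.pi / (9 * Real.sqrt 3)) ≤ c N) ∧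
    (∀ N : ℕ, 2 ≤ N → c 1 < c N) := by
  have hN := Pool.Agent.K6.H60.TZ.t_NORM
  have hT := Pool.Agent.K6.H60.TZ.t_TRANS
  have hD := Pool.Agent.K6.H60.TZ.DTHREE.dual Pool.Agent.K6.H60.TZ.t_LONE
  have h3 := Pool.Agent.K6.H60.TZ.t_NTHREE
  have h1 := Pool.Agent.K6.H60.TZ.CONE2.cone Pool.Agent.K6.H60.TZ.SGN60.sgn
  have all := fun (N : ℕ) (h : 2 ≤ N) => Pool.Agent.K6.H60.TZ.ASM.all hN hT hD h3 h
  exact ⟨fun N k M hk h1 h2 => Pool.Agent.K6.H60.TZ.ASM.mono hN hT hk h1 h2,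
    fun N M h => Pool.Agent.K6.H60.TZ.ASM.mono_sq hN hT h,
    Pool.Agent.K6.H60.TZ.ASM.lim hN hT, h1, Pool.Agent.K6.H60.TZ.ASM.pi_lt, all,
    fun N h => (h1.trans_lt Pool.Agent.K6.H60.TZ.ASM.pi_lt).trans_le (all N h)⟩

end Pool.Agent.Results.MP_4845ad_an.EventualMonotonicity
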